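import Pool.Agent.Lib.MP_dbccd7_gt.Main

/-!
# The Lawson-Yau problem has a negative answer in every dimension `n ≥ 3`

For all `n ≥ 3` and `δ > 0` there are a closed connected smooth `n`-manifold `M`, a hyperbolic
metric `h` on `M` (all sectional curvatures `-1`) and a metric `g` on `M` with all sectional
curvatures in `(-1-δ, -1+δ)` such that no harmonic map `(M, g) → (M, h)` homotopic to the identity
is a diffeomorphism.

The definitions (metrics in charts, Christoffel symbols, curvature, Laplace-Beltrami operator,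
tension field, harmonic maps) are in `Pool/Agent/Lib/MP_dbccd7_gt/Statement.lean`.
-/

open scoped Manifold ContDiff

namespace Pool.Agent.Results.MP_dbccd7_gt.LawsonYau

open Pool.Agent.Lib.MPdbccd7

theorem result :
    ∀ n : ℕ, 3 ≤ n → ∀ δ : ℝ, 0 < δ →
      ∃ (M : Type) (_ : TopologicalSpace M) (_ : ChartedSpace (E n) M),
        IsManifold (𝓡 n) ∞ M ∧ T2Space M ∧ SecondCountableTopology M ∧ CompactSpace M ∧
        ConnectedSpace M ∧
        ∃ g h : RMetric n M, g.SecIn (Set.Ioo (-1 - δ) (-1 + δ)) ∧ h.SecIn {-1} ∧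
          ∀ u : M → M, IsHarmonicMap g h u →
            (∃ hu : Continuous u, ContinuousMap.Homotopic ⟨u, hu⟩ (ContinuousMap.id M)) →
            ¬ ∃ Φ : M ≃ₘ^∞⟮𝓡 n, 𝓡 n⟯ M, (Φ : M → M) = u :=
  mainStatement

end Pool.Agent.Results.MP_dbccd7_gt.LawsonYau
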